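import Mathlib

/-!
# Periodicity of generalized pseudostandard words over a finite alphabet

We prove the conjecture: a `d`-ary generalized pseudostandard word `u` with a normalized directive
bi-sequence `(Δ, Θ)` is periodic iff, from some index on, `ϑ_i(δ_{i+1})` is constant and `ϑ_{i+1}`
maps `ϑ_i`-palindromes to `ϑ_{i+2}`-palindromes.
-/

namespace Pool.Agent.Results.MP_757726_co.PeriodicIff

variable {A : Type*}

/-- `θ` is an involutory antimorphism of the free monoid `A*` (finite words over `A`). -/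
def IsInvAnti (θ : List A → List A) : Prop :=
  (∀ v w, θ (v ++ w) = θ w ++ θ v) ∧ ∀ w, θ (θ w) = w

/-- `c` is the `θ`-palindromic closure of `w`: a shortest `θ`-palindrome with prefix `w`. -/
def IsClosure (θ : List A → List A) (w c : List A) : Prop :=
  θ c = c ∧ w <+: c ∧ ∀ c', θ c' = c' → w <+: c' → c.length ≤ c'.length

/-- The first `m` letters of the infinite word `u`. -/
def pre (u : ℕ → A) (m : ℕ) : List A := (List.range m).map u

/-- `u` is the generalized pseudostandard word `u(Δ, Θ)` and `w n` is the word `w_n`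
(`Δ n = δ_{n+1}`, `Θ n = ϑ_{n+1}`): `w_0 = ε`, `w_{n+1} = (w_n δ_{n+1})^{ϑ_{n+1}}` and every `w_n`
is an initial block of `u`. -/
def Generates (Δ : ℕ → A) (Θ : ℕ → List A → List A) (w : ℕ → List A) (u : ℕ → A) : Prop :=
  (∀ n, IsInvAnti (Θ n)) ∧ w 0 = [] ∧ (∀ n, IsClosure (Θ n) (w n ++ [Δ n]) (w (n + 1))) ∧
    ∀ n, w n = pre u (w n).length

/-- The bi-sequence is normalized: `(w_n)` contains every initial block of `u` that is a
`θ`-palindrome for some involutory antimorphism `θ`. -/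
def Normalized (w : ℕ → List A) (u : ℕ → A) : Prop :=
  ∀ m (θ : List A → List A), IsInvAnti θ → θ (pre u m) = pre u m → ∃ n, w n = pre u m

/-- `u = x v^ω` for finite words `x`, `v` with `v` nonempty. -/
def IsPeriodic (u : ℕ → A) : Prop :=
  ∃ K P, 0 < P ∧ ∀ k, K ≤ k → u (k + P) = u k

/-! ### Antimorphisms -/

lemma anti_nil {θ : List A → List A} (h : IsInvAnti θ) : θ [] = [] := by
  have := h.1 [] []
  simp only [List.append_nil] at this
  have h2 := congrArg List.length this
  rw [List.length_append] at h2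
  exact List.length_eq_zero_iff.mp (by omega)

lemma anti_len_ge {θ : List A → List A} (h : IsInvAnti θ) :
    ∀ w : List A, w.length ≤ (θ w).length
  | [] => by simp
  | a :: w => by
    have h1 := h.1 [a] w
    have h2 := anti_len_ge h w
    have h3 : θ [a] ≠ [] := by
      intro h4
      have h5 := h.2 [a]
      rw [h4, anti_nil h] at h5
      simp at h5
    have h6 : 0 < (θ [a]).length := List.length_pos_iff.mpr h3
    have h7 : a :: w = [a] ++ w := rfl
    rw [h7, h1, List.length_append]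
    simp only [List.length_append, List.length_cons, List.length_nil]
    omega

lemma anti_len {θ : List A → List A} (h : IsInvAnti θ) (w : List A) :
    (θ w).length = w.length := by
  have h1 := anti_len_ge h w
  have h2 := anti_len_ge h (θ w)
  rw [h.2] at h2
  omega

lemma anti_exists {θ : List A → List A} (h : IsInvAnti θ) :
    ∃ π : A → A, (∀ a, θ [a] = [π a]) ∧ (∀ a, π (π a) = a) ∧
      ∀ l, θ l = (l.map π).reverse := by
  have h1 : ∀ a, ∃ b, θ [a] = [b] := by
    intro a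
    have := anti_len h [a]
    simp only [List.length_cons, List.length_nil, zero_add] at this
    exact List.length_eq_one_iff.mp this
  choose π hπ using h1
  refine ⟨π, hπ, ?_, ?_⟩
  · intro a
    have h2 := h.2 [a]
    rw [hπ, hπ] at h2
    simpa using h2
  · intro l
    induction l with
    | nil => simp [anti_nil h]
    | cons a l ih =>
      have h7 : a :: l = [a] ++ l := rfl
      rw [h7, h.1, ih, hπ]
      simp

lemma anti_of_perm {π : A → A} (h : ∀ a, π (π a) = a) :
    IsInvAnti (fun l : List A => (l.map π).reverse) := by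
  constructor
  · intro v w
    simp
  · intro w
    simp only [List.map_reverse, List.reverse_reverse, List.map_map]
    have : π ∘ π = id := by
      funext a
      exact h a
    rw [this, List.map_id]

lemma pre_length (u : ℕ → A) (m : ℕ) : (pre u m).length = m := by
  simp [pre]

/-- Palindromic initial blocks, letter by letter. -/
lemma pal_iff (u : ℕ → A) (π : A → A) (m : ℕ) :
    ((pre u m).map π).reverse = pre u m ↔ ∀ k, k < m → u (m - 1 - k) = π (u k) := by
  constructor
  · intro h k hk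
    have h1 : (((pre u m).map π).reverse)[m - 1 - k]? = (pre u m)[m - 1 - k]? := by rw [h]
    rw [List.getElem?_reverse (by simp [pre]; omega)] at h1
    simp only [pre, List.length_map, List.length_range, List.getElem?_map] at h1
    rw [List.getElem?_range (by omega), List.getElem?_range (by omega)] at h1
    simp only [Option.map_some, Option.some.injEq] at h1
    rw [← h1]
    congr 2
    omega
  · intro h
    apply List.ext_getElem
    · simp
    · intro i h1 h2
      rw [pre_length] at h2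
      rw [List.getElem_reverse]
      simp only [pre, List.length_map, List.length_range, List.getElem_map, List.getElem_range]
      rw [← h _ (by omega)]
      congr 1
      omega

/-- A palindromic suffix bounds the length of the closure. -/
lemma closure_le {θ : List A → List A} (h : IsInvAnti θ) {x s c : List A}
    (hc : IsClosure θ (x ++ s) c) (hs : θ s = s) : c.length ≤ 2 * x.length + s.length := by
  have h1 := hc.2.2 (x ++ s ++ θ x) (by
    rw [h.1, h.1, h.2, hs]
    simp) (List.prefix_append _ _)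
  rw [List.length_append, List.length_append, anti_len h] at h1
  omega

/-! ### The set-up -/

structure Setup (A : Type*) where
  Δ : ℕ → A
  Θ : ℕ → List A → List A
  w : ℕ → List A
  u : ℕ → A
  gen : Generates Δ Θ w u
  norm : Normalized w u
  surj : ∀ a, ∃ k, u k = a
  π : ℕ → A → A
  hπ1 : ∀ n a, Θ n [a] = [π n a]
  hπ2 : ∀ n a, π n (π n a) = a
  hπ3 : ∀ n l, Θ n l = (l.map (π n)).reverse

variable (S : Setup A)

/-- The length of `w_n`. -/
def Setup.L (n : ℕ) : ℕ := (S.w n).length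

lemma Setup.anti (n : ℕ) : IsInvAnti (S.Θ n) := S.gen.1 n

lemma Setup.L_succ (n : ℕ) : S.L n + 1 ≤ S.L (n + 1) := by
  have h := (S.gen.2.2.1 n).2.1.length_le
  simpa [Setup.L] using h

lemma Setup.L_mono : StrictMono S.L :=
  strictMono_nat_of_lt_succ fun n => S.L_succ n

lemma Setup.L_ge (n : ℕ) : n ≤ S.L n := S.L_mono.id_le n

/-- reflection in `w_{n+1}` -/
lemma Setup.refl (n k : ℕ) (hk : k < S.L (n + 1)) :
    S.u (S.L (n + 1) - 1 - k) = S.π n (S.u k) := by
  have h1 := (S.gen.2.2.1 n).1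
  rw [S.gen.2.2.2 (n + 1), S.hπ3] at h1
  exact (pal_iff S.u (S.π n) _).mp h1 k hk

/-- `u (L n) = δ_{n+1}` -/
lemma Setup.next (n : ℕ) : S.u (S.L n) = S.Δ n := by
  have h1 := (S.gen.2.2.1 n).2.1
  obtain ⟨t, ht⟩ := h1
  have h2 := S.gen.2.2.2 (n + 1)
  have h3 : (S.w (n + 1))[S.L n]? = some (S.Δ n) := by
    rw [← ht]
    simp [Setup.L]
  rw [h2] at h3
  have h4 := S.L_succ n
  rw [pre, List.getElem?_map, List.getElem?_range (by unfold Setup.L at h4 ⊢; omega)] at h3
  simpa using h3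

/-- normalization, letter by letter -/
lemma Setup.no_between (m : ℕ) (π : A → A) (h2 : ∀ a, π (π a) = a)
    (hp : ∀ k, k < m → S.u (m - 1 - k) = π (S.u k)) : ∃ j, S.L j = m := by
  have h1 := S.norm m _ (anti_of_perm h2) ((pal_iff S.u π m).mpr hp)
  obtain ⟨j, hj⟩ := h1
  refine ⟨j, ?_⟩
  rw [Setup.L, hj, pre_length]

/-! ### The conditions imply periodicity -/

section Backward

variable {N : ℕ}
  (h1 : ∀ i j, N ≤ i → N ≤ j → S.Θ i [S.Δ (i + 1)] = S.Θ j [S.Δ (j + 1)])
  (h2 : ∀ i, N ≤ i → ∀ w, S.Θ i w = w → S.Θ (i + 2) (S.Θ (i + 1) w) = S.Θ (i + 1) w)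

include h2 in
lemma Setup.pi_rel (i : ℕ) (hi : N ≤ i) (x : A) :
    S.π (i + 2) (S.π (i + 1) x) = S.π (i + 1) (S.π i x) := by
  have h := h2 i hi [x, S.π i x] (by
    rw [S.hπ3]
    simp [S.hπ2])
  rw [S.hπ3, S.hπ3] at h
  simp only [List.map_cons, List.map_nil, List.reverse_cons, List.reverse_nil, List.nil_append,
    List.cons_append, List.cons.injEq] at h
  exact h.1

include h1 h2 in
lemma Setup.pi_delta (n : ℕ) (hn : N ≤ n) :
    S.π (n + 2) (S.Δ (n + 2)) = S.π (n + 1) (S.Δ (n + 1)) := by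
  have e1 := h1 (n + 1) n (by omega) hn
  rw [S.hπ1, S.hπ1] at e1
  simp only [List.cons.injEq, and_true] at e1
  have e2 := S.pi_rel h2 n hn (S.π (n + 1) (S.Δ (n + 2)))
  rw [S.hπ2] at e2
  rw [e2]
  have e3 : S.π (n + 1) (S.Δ (n + 2)) = S.π n (S.Δ (n + 1)) := e1
  rw [e3, S.hπ2]

include h1 h2 in
lemma Setup.len_le (n : ℕ) (hn : N ≤ n) : S.L (n + 3) + S.L (n + 1) ≤ 2 * S.L (n + 2) := by
  obtain ⟨t, ht⟩ := (S.gen.2.2.1 (n + 1)).2.1
  have e0 : (S.Θ (n + 1)) (S.w (n + 2)) = S.w (n + 2) := (S.gen.2.2.1 (n + 1)).1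
  have e1 : S.w (n + 2) = S.Θ (n + 1) t ++ (S.Θ (n + 1) [S.Δ (n + 1)] ++
      S.Θ (n + 1) (S.w (n + 1))) := by
    rw [← e0, ← (show S.w (n + 1) ++ [S.Δ (n + 1)] ++ t = S.w (n + 2) from ht),
      (S.anti (n + 1)).1, (S.anti (n + 1)).1]
  have e2 : S.Θ (n + 2) (S.Θ (n + 1) (S.w (n + 1))) = S.Θ (n + 1) (S.w (n + 1)) :=
    h2 n hn _ (S.gen.2.2.1 n).1
  have e3 : S.Θ (n + 2) [S.Δ (n + 2)] = S.Θ (n + 1) [S.Δ (n + 1)] := by
    rw [S.hπ1, S.hπ1, S.pi_delta h1 h2 n hn]
  have e4 : S.Θ (n + 2) (S.Θ (n + 1) [S.Δ (n + 1)]) = [S.Δ (n + 2)] := by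
    rw [← e3, (S.anti (n + 2)).2]
  have e5 := closure_le (S.anti (n + 2)) (x := S.Θ (n + 1) t)
    (s := S.Θ (n + 1) [S.Δ (n + 1)] ++ S.Θ (n + 1) (S.w (n + 1)) ++ [S.Δ (n + 2)])
    (c := S.w (n + 3)) (by
      have e6 := S.gen.2.2.1 (n + 2)
      rw [e1] at e6
      simpa [List.append_assoc] using e6) (by
      rw [(S.anti (n + 2)).1, (S.anti (n + 2)).1, e2, e3, e4]
      simp)
  have e7 := congrArg List.length ht
  simp only [List.length_append, anti_len (S.anti (n + 1)), List.length_cons,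
    List.length_nil] at e5 e7
  have e8 : (S.w (n + 1 + 1)).length = S.L (n + 2) := rfl
  have e9 : (S.w (n + 1)).length = S.L (n + 1) := rfl
  have e10 : (S.w (n + 3)).length = S.L (n + 3) := rfl
  omega

include h1 h2 in
lemma Setup.len_eq (n : ℕ) (hn : N ≤ n) : S.L (n + 3) + S.L (n + 1) = 2 * S.L (n + 2) := by
  have e1 := S.len_le h1 h2 n hn
  rcases eq_or_lt_of_le e1 with e | e
  · exact e
  exfalso
  have m1 := S.L_succ (n + 2)
  have m2 := S.L_succ (n + 1)
  have m3 : n + 2 + 1 = n + 3 := rfl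
  rw [m3] at m1
  have m4 : n + 1 + 1 = n + 2 := rfl
  rw [m4] at m2
  obtain ⟨j, hj⟩ := S.no_between (2 * S.L (n + 2) - S.L (n + 3))
    (fun a => S.π (n + 1) (S.π (n + 2) (S.π (n + 1) a))) (by
      intro a
      simp only [S.hπ2]) (by
      intro k hk
      have r1 := S.refl (n + 1) k (show k < S.L (n + 2) by omega)
      have r2 := S.refl (n + 2) (S.L (n + 2) - 1 - k) (show _ < S.L (n + 3) by omega)
      have r3 := S.refl (n + 1) (S.L (n + 3) - S.L (n + 2) + k) (show _ < S.L (n + 2) by omega)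
      rw [m4] at r1 r3
      rw [m3] at r2
      have r4 : S.L (n + 3) - 1 - (S.L (n + 2) - 1 - k) = S.L (n + 3) - S.L (n + 2) + k := by
        omega
      rw [r4, r1] at r2
      rw [r2] at r3
      have r5 : S.L (n + 2) - 1 - (S.L (n + 3) - S.L (n + 2) + k)
          = 2 * S.L (n + 2) - S.L (n + 3) - 1 - k := by omega
      rw [r5] at r3
      exact r3)
  have g1 : n + 1 < j := S.L_mono.lt_iff_lt.mp (by omega)
  have g2 : j < n + 2 := S.L_mono.lt_iff_lt.mp (by omega)
  omega

include h1 h2 in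
lemma Setup.gap (n : ℕ) : S.L (N + n + 2) = S.L (N + n + 1) + (S.L (N + 2) - S.L (N + 1)) := by
  induction n with
  | zero =>
    have m2 := S.L_succ (N + 1)
    have m4 : N + 1 + 1 = N + 2 := rfl
    rw [m4] at m2
    simp only [add_zero]
    omega
  | succ n ih =>
    have e1 := S.len_eq h1 h2 (N + n) (by omega)
    have e2 : N + (n + 1) + 2 = N + n + 3 := by omega
    have e3 : N + (n + 1) + 1 = N + n + 2 := by omega
    rw [e2, e3]
    omega

include h2 in
lemma Setup.tau (n : ℕ) (x : A) :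
    S.π (N + n + 1) (S.π (N + n) x) = S.π (N + 1) (S.π N x) := by
  induction n with
  | zero => rfl
  | succ n ih =>
    have := S.pi_rel h2 (N + n) (by omega) x
    rw [← ih, ← this]
    rfl

include h1 h2 in
lemma Setup.shift (k : ℕ) :
    S.u (k + (S.L (N + 2) - S.L (N + 1))) = S.π (N + 1) (S.π N (S.u k)) := by
  have hk : k < S.L (N + k + 1) := by
    have := S.L_ge (N + k + 1)
    omega
  have g := S.gap h1 h2 k
  have r1 := S.refl (N + k) k hk
  have r2 := S.refl (N + k + 1) (S.L (N + k + 1) - 1 - k)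
    (show _ < S.L (N + k + 2) by omega)
  have m4 : N + k + 1 + 1 = N + k + 2 := rfl
  rw [r1, m4, S.tau h2 k] at r2
  rw [← r2]
  congr 1
  omega

include h1 h2 in
theorem Setup.backward [Finite A] : IsPeriodic S.u := by
  set g := S.L (N + 2) - S.L (N + 1) with hg
  have hg0 : 0 < g := by
    have := S.L_succ (N + 1)
    have m4 : N + 1 + 1 = N + 2 := rfl
    rw [m4] at this
    omega
  let p : ℕ → Equiv.Perm A := fun n =>
    Function.Involutive.toPerm (S.π n) (fun a => S.hπ2 n a)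
  let τ : Equiv.Perm A := p (N + 1) * p N
  have hτ : ∀ k, S.u (k + g) = τ (S.u k) := fun k => S.shift h1 h2 k
  have hit : ∀ i k, S.u (k + g * i) = (τ ^ i) (S.u k) := by
    intro i
    induction i with
    | zero => intro k; simp
    | succ i ih =>
      intro k
      have e1 : k + g * (i + 1) = (k + g * i) + g := by ring
      rw [e1, hτ, ih, pow_succ']
      rfl
  refine ⟨0, g * orderOf τ, Nat.mul_pos hg0 (orderOf_pos τ), ?_⟩
  intro k _
  rw [hit, pow_orderOf_eq_one, Equiv.Perm.one_apply]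

end Backward

/-! ### Periodicity implies the conditions -/

section Forward

variable {K P : ℕ} (hP : 0 < P) (hK : ∀ k, K ≤ k → S.u (k + P) = S.u k)

include hK in
lemma Setup.pure (k : ℕ) : S.u (k + P) = S.u k := by
  have hL := S.L_ge (K + P + k + 1 + 1)
  have r1 := S.refl (K + P + k + 1) k (by omega)
  have r2 := S.refl (K + P + k + 1) (k + P) (by omega)
  have r3 := hK (S.L (K + P + k + 1 + 1) - 1 - (k + P)) (by omega)
  have r4 : S.L (K + P + k + 1 + 1) - 1 - (k + P) + P = S.L (K + P + k + 1 + 1) - 1 - k := by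
    omega
  rw [r4, r1, r2] at r3
  have r5 := congrArg (S.π (K + P + k + 1)) r3
  rw [S.hπ2, S.hπ2] at r5
  exact r5.symm

include hK in
lemma Setup.modP {a b : ℕ} (h : a ≡ b [MOD P]) : S.u a = S.u b := by
  have hp : Function.Periodic S.u P := fun k => S.pure hK k
  rw [← hp.map_mod_nat a, ← hp.map_mod_nat b]
  rw [h]

include hP hK in
lemma Setup.refl_mod (n : ℕ) (hn : P ≤ S.L (n + 1)) {k j : ℕ}
    (h : ((k : ZMod P) + j + 1) = S.L (n + 1)) : S.u j = S.π n (S.u k) := by
  have hk : k % P < P := Nat.mod_lt _ hP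
  have r1 := S.refl n (k % P) (by omega)
  rw [S.modP hK (Nat.mod_modEq k P)] at r1
  rw [← r1]
  apply S.modP hK
  rw [← ZMod.natCast_eq_natCast_iff]
  have e1 : (S.L (n + 1) - 1 - k % P) + (k % P) + 1 = S.L (n + 1) := by omega
  have e2 : ((S.L (n + 1) - 1 - k % P : ℕ) : ZMod P) + ((k % P : ℕ) : ZMod P) + 1
      = S.L (n + 1) := by exact_mod_cast congrArg (Nat.cast (R := ZMod P)) e1
  have e3 : ((k % P : ℕ) : ZMod P) = k :=
    (ZMod.natCast_eq_natCast_iff _ _ _).mpr (Nat.mod_modEq k P)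
  rw [e3] at e2
  linear_combination h - e2

include hP hK in
/-- The block of length `2 L_{a+1} - L_{b+1}` is `π_a π_b π_a`-palindromic. -/
lemma Setup.pal_two (a b : ℕ) (ha : P ≤ S.L (a + 1)) (hb : P ≤ S.L (b + 1)) (m : ℕ)
    (hm : m + S.L (b + 1) = 2 * S.L (a + 1)) (k : ℕ) (hk : k < m) :
    S.u (m - 1 - k) = S.π a (S.π b (S.π a (S.u k))) := by
  obtain ⟨q, rfl⟩ : ∃ q, P = q + 1 := ⟨P - 1, by omega⟩
  have hz : ((q : ZMod (q + 1)) + 1) = 0 := by
    have := ZMod.natCast_self (q + 1)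
    push_cast at this
    exact this
  have ex : ∀ k L : ℕ, ∃ k1 : ℕ, ((k : ZMod (q + 1)) + k1 + 1) = L := by
    intro k L
    refine ⟨L + q * (k + 1), ?_⟩
    push_cast
    linear_combination (k + 1 : ZMod (q + 1)) * hz
  obtain ⟨k1, hk1⟩ := ex k (S.L (a + 1))
  obtain ⟨k2, hk2⟩ := ex k1 (S.L (b + 1))
  have f1 := S.refl_mod hP hK a ha hk1
  have f2 := S.refl_mod hP hK b hb hk2
  have e1 : (m - 1 - k) + k + 1 = m := by omega
  have e2 : ((m - 1 - k : ℕ) : ZMod (q + 1)) + k + 1 = m := by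
    exact_mod_cast congrArg (Nat.cast (R := ZMod (q + 1))) e1
  have e3 : (m : ZMod (q + 1)) + S.L (b + 1) = 2 * S.L (a + 1) := by
    exact_mod_cast congrArg (Nat.cast (R := ZMod (q + 1))) hm
  have f3 := S.refl_mod hP hK a ha (k := k2) (j := m - 1 - k) (by
    linear_combination e2 + e3 + hk2 - hk1)
  rw [f3, f2, f1]

include hP hK in
lemma Setup.cond_one (i : ℕ) (hi : P ≤ S.L (i + 1)) : S.Θ i [S.Δ (i + 1)] = [S.u (P - 1)] := by
  rw [S.hπ1, ← S.next (i + 1)]
  have e1 : P - 1 + 1 = P := by omega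
  have e2 : ((P - 1 : ℕ) : ZMod P) + 1 = 0 := by
    have := congrArg (Nat.cast (R := ZMod P)) e1
    rw [ZMod.natCast_self] at this
    exact_mod_cast this
  rw [S.refl_mod hP hK i hi (k := S.L (i + 1)) (j := P - 1) (by linear_combination e2)]

include hP hK in
lemma Setup.len_three (n : ℕ) (hn : P ≤ S.L (n + 1)) :
    S.L (n + 3) + S.L (n + 1) = 2 * S.L (n + 2) := by
  have m1 : S.L (n + 2) + 1 ≤ S.L (n + 3) := S.L_succ (n + 2)
  have m2 : S.L (n + 1) + 1 ≤ S.L (n + 2) := S.L_succ (n + 1)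
  have hinv : ∀ a b : ℕ, ∀ x, S.π a (S.π b (S.π a (S.π a (S.π b (S.π a x))))) = x := by
    intro a b x
    rw [S.hπ2, S.hπ2, S.hπ2]
  obtain ⟨j, hj⟩ := S.no_between (2 * S.L (n + 2) - S.L (n + 1))
    (fun x => S.π (n + 1) (S.π n (S.π (n + 1) x))) (hinv (n + 1) n)
    (S.pal_two hP hK (n + 1) n (by change P ≤ S.L (n + 2); omega) hn _ (by
      change _ = 2 * S.L (n + 2); omega))
  have j1 : n + 2 < j := S.L_mono.lt_iff_lt.mp (by omega)
  have j2 : S.L (n + 3) ≤ S.L j := S.L_mono.monotone (by omega)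
  rcases eq_or_lt_of_le j2 with e | e
  · omega
  exfalso
  obtain ⟨i, hi⟩ := S.no_between (2 * S.L (n + 2) - S.L (n + 3))
    (fun x => S.π (n + 1) (S.π (n + 2) (S.π (n + 1) x))) (hinv (n + 1) (n + 2))
    (S.pal_two hP hK (n + 1) (n + 2) (by change P ≤ S.L (n + 2); omega)
      (by change P ≤ S.L (n + 3); omega) _ (by
      change _ + S.L (n + 3) = 2 * S.L (n + 2); omega))
  have g1 : n + 1 < i := S.L_mono.lt_iff_lt.mp (by omega)
  have g2 : i < n + 2 := S.L_mono.lt_iff_lt.mp (by omega)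
  omega

include hP hK in
lemma Setup.pi_three (n : ℕ) (hn : P ≤ S.L (n + 1)) (x : A) :
    S.π (n + 2) x = S.π (n + 1) (S.π n (S.π (n + 1) x)) := by
  obtain ⟨k, rfl⟩ := S.surj x
  have m1 : S.L (n + 2) + 1 ≤ S.L (n + 3) := S.L_succ (n + 2)
  have m2 : S.L (n + 1) + 1 ≤ S.L (n + 2) := S.L_succ (n + 1)
  have e := S.len_three hP hK n hn
  have hk : k % P < P := Nat.mod_lt _ hP
  have r1 := S.refl (n + 2) (k % P) (show _ < S.L (n + 3) by omega)
  have r2 := S.pal_two hP hK (n + 1) n (by change P ≤ S.L (n + 2); omega) hn (S.L (n + 3)) (by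
    change _ = 2 * S.L (n + 2); omega) (k % P) (by omega)
  have r3 : S.u (k % P) = S.u k := S.modP hK (Nat.mod_modEq k P)
  rw [r3] at r1 r2
  rw [← r2, ← r1]

include hP hK in
theorem Setup.forward : ∃ N, (∀ i j, N ≤ i → N ≤ j → S.Θ i [S.Δ (i + 1)] = S.Θ j [S.Δ (j + 1)]) ∧
    ∀ i, N ≤ i → ∀ w, S.Θ i w = w → S.Θ (i + 2) (S.Θ (i + 1) w) = S.Θ (i + 1) w := by
  refine ⟨P, ?_, ?_⟩
  · intro i j hi hj
    rw [S.cond_one hP hK i, S.cond_one hP hK j]
    · have := S.L_ge (j + 1); omega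
    · have := S.L_ge (i + 1); omega
  · intro i hi w hw
    have h3 := S.pi_three hP hK i (by have := S.L_ge (i + 1); omega)
    rw [S.hπ3] at hw
    rw [S.hπ3 (i + 2), S.hπ3 (i + 1)]
    rw [List.map_reverse, List.reverse_reverse, List.map_map]
    have e1 : S.π (i + 2) ∘ S.π (i + 1) = S.π (i + 1) ∘ S.π i := by
      funext x
      simp only [Function.comp]
      rw [h3, S.hπ2]
    rw [e1, ← List.map_map, ← List.map_reverse]
    congr 1
    have e2 := congrArg List.reverse hw
    rw [List.reverse_reverse] at e2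
    exact e2

end Forward

/-- **Main result.** Let `u = u(Δ, Θ)` be a `d`-ary generalized pseudostandard word over a finite
alphabet, with a normalized directive bi-sequence. Then `u` is periodic iff, from some index on,
`ϑ_i(δ_{i+1})` is constant and `ϑ_{i+1}(w)` is a `ϑ_{i+2}`-palindrome for every
`ϑ_i`-palindrome `w`. -/
theorem result : ∀ (A : Type) [Finite A] (Δ : ℕ → A) (Θ : ℕ → List A → List A)
    (w : ℕ → List A) (u : ℕ → A),
    Generates Δ Θ w u → Normalized w u → (∀ a, ∃ k, u k = a) →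
    (IsPeriodic u ↔
      ∃ N, (∀ i j, N ≤ i → N ≤ j → Θ i [Δ (i + 1)] = Θ j [Δ (j + 1)]) ∧
        ∀ i, N ≤ i → ∀ v, Θ i v = v → Θ (i + 2) (Θ (i + 1) v) = Θ (i + 1) v) := by
  intro A _ Δ Θ w u hg hn hs
  have hπ := fun n => anti_exists (hg.1 n)
  choose π h1 h2 h3 using hπ
  let S : Setup A := ⟨Δ, Θ, w, u, hg, hn, hs, π, h1, h2, h3⟩
  constructor
  · rintro ⟨K, P, hP, hK⟩
    exact S.forward hP hK
  · rintro ⟨N, c1, c2⟩
    exact S.backward (N := N) c1 c2

end Pool.Agent.Results.MP_757726_co.PeriodicIff
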